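import Mathlib

set_option autoImplicit false
set_option linter.unusedSectionVars false
open Matrix Finset
open scoped ComplexOrder

namespace Pool.Agent.H.MP_7b724e_an

variable {m : Type} [Fintype m] [DecidableEq m]

def fc (U : Matrix m m ℂ) (d : m → ℝ) : Matrix m m ℂ := U * diagonal (fun i => (d i : ℂ)) * Uᴴ

def tr (A : Matrix m m ℂ) : ℝ := (trace A).re

theorem spec {A : Matrix m m ℂ} (hA : A.IsHermitian) :
    ∃ (U : Matrix m m ℂ) (d : m → ℝ), Uᴴ * U = 1 ∧ A = fc U d ∧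
      ∀ f : ℝ → ℝ, cfc f A = fc U fun i => f (d i) :=
  ⟨hA.eigenvectorUnitary, hA.eigenvalues, hA.eigenvectorUnitary.2.1, hA.spectral_theorem,
    fun f => hA.cfc_eq f⟩

theorem fc_mul {U : Matrix m m ℂ} (h : Uᴴ * U = 1) (d e : m → ℝ) :
    fc U d * fc U e = fc U fun i => d i * e i := by
  simp only [fc, Complex.ofReal_mul, ← diagonal_mul_diagonal, mul_assoc]
  rw [← mul_assoc Uᴴ, h, one_mul]

theorem fc_one {U : Matrix m m ℂ} (h : Uᴴ * U = 1) : fc U (fun _ => 1) = 1 := by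
  rw [fc, Complex.ofReal_one, diagonal_one, mul_one, mul_eq_one_comm.1 h]

theorem fc_add (U : Matrix m m ℂ) (d e : m → ℝ) : fc U d + fc U e = fc U fun i => d i + e i := by
  simp only [fc, Complex.ofReal_add, ← diagonal_add, mul_add, add_mul]

theorem fc_sub (U : Matrix m m ℂ) (d e : m → ℝ) : fc U d - fc U e = fc U fun i => d i - e i := by
  simp only [fc, Complex.ofReal_sub, ← diagonal_sub, mul_sub, sub_mul]

theorem fc_smul (U : Matrix m m ℂ) (c : ℝ) (d : m → ℝ) :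
    fc U (fun i => c * d i) = (c : ℂ) • fc U d := by
  rw [fc, fc, ← smul_mul_assoc, ← mul_smul_comm, ← diagonal_smul]
  congr 3
  ext i
  simp

theorem fc_herm (U : Matrix m m ℂ) (d : m → ℝ) : (fc U d)ᴴ = fc U d := by
  have : (star fun i => (d i : ℂ)) = fun i => (d i : ℂ) := by ext i; simp
  simp [fc, mul_assoc, this]

theorem fc_inv {U : Matrix m m ℂ} (h : Uᴴ * U = 1) {d : m → ℝ} (hd : ∀ i, d i ≠ 0) :
    fc U d * fc U (fun i => (d i)⁻¹) = 1 := by
  simp only [fc_mul h, mul_inv_cancel₀ (hd _), fc_one h]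

theorem fc_back {U : Matrix m m ℂ} (h : Uᴴ * U = 1) (d : m → ℝ) :
    Uᴴ * fc U d * U = diagonal fun i => (d i : ℂ) := by
  simp only [fc, ← mul_assoc, h, one_mul]
  rw [mul_assoc, h, mul_one]

theorem fc_pos {U : Matrix m m ℂ} (h : Uᴴ * U = 1) {d : m → ℝ} (hd : (fc U d).PosDef) (i : m) :
    0 < d i := by
  have := hd.conjTranspose_mul_mul_same (B := U)
    (mulVec_injective_iff_isUnit.2 (IsUnit.of_mul_eq_one_right _ h))
  rw [fc_back h] at this
  exact_mod_cast posDef_diagonal_iff.1 this i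

theorem fc_nonneg {U : Matrix m m ℂ} (h : Uᴴ * U = 1) {d : m → ℝ} (hd : (fc U d).PosSemidef)
    (i : m) : 0 ≤ d i := by
  have := hd.conjTranspose_mul_mul_same U
  rw [fc_back h] at this
  exact_mod_cast posSemidef_diagonal_iff.1 this i

theorem fc_psd (U : Matrix m m ℂ) {d : m → ℝ} (hd : ∀ i, 0 ≤ d i) : (fc U d).PosSemidef :=
  (PosSemidef.diagonal fun i => by simpa using hd i).mul_mul_conjTranspose_same U

theorem conj_pd {P Q A : Matrix m m ℂ} (h : Q * P = 1) (hA : A.PosDef) : (Pᴴ * A * P).PosDef :=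
  hA.conjTranspose_mul_mul_same (mulVec_injective_iff_isUnit.2 (IsUnit.of_mul_eq_one_right _ h))

theorem fc_pd {U : Matrix m m ℂ} (h : Uᴴ * U = 1) {d : m → ℝ} (hd : ∀ i, 0 < d i) :
    (fc U d).PosDef := by
  have := conj_pd (P := Uᴴ) (Q := U) (mul_eq_one_comm.1 h)
    (posDef_diagonal_iff.2 fun i => (by exact_mod_cast hd i : (0 : ℂ) < d i))
  rwa [conjTranspose_conjTranspose] at this

theorem tr_add (A B : Matrix m m ℂ) : tr (A + B) = tr A + tr B := by simp [tr]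

theorem tr_sub (A B : Matrix m m ℂ) : tr (A - B) = tr A - tr B := by simp [tr]

theorem tr_comm (A B : Matrix m m ℂ) : tr (A * B) = tr (B * A) := by rw [tr, trace_mul_comm, tr]

theorem tr_nonneg {A : Matrix m m ℂ} (h : A.PosSemidef) : 0 ≤ tr A :=
  (Complex.nonneg_iff.1 h.trace_nonneg).1

def dg (V Y : Matrix m m ℂ) (i : m) : ℝ := ((Vᴴ * Y * V) i i).re

theorem tr_fc_mul (V : Matrix m m ℂ) (d : m → ℝ) (Y : Matrix m m ℂ) :
    tr (fc V d * Y) = ∑ i, d i * dg V Y i := by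
  rw [fc, mul_assoc, mul_assoc, tr_comm, mul_assoc, tr, trace, Complex.re_sum]
  simp [dg, diagonal_mul]

theorem dg_sum {V : Matrix m m ℂ} (h : Vᴴ * V = 1) (Y : Matrix m m ℂ) :
    ∑ i, dg V Y i = tr Y := by
  simpa [fc_one h] using (tr_fc_mul V (fun _ => 1) Y).symm

theorem dg_add (V X Y : Matrix m m ℂ) (i : m) : dg V (X + Y) i = dg V X i + dg V Y i := by
  simp [dg, mul_add, add_mul]

theorem dg_self {V : Matrix m m ℂ} (h : Vᴴ * V = 1) (d : m → ℝ) (i : m) :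
    dg V (fc V d) i = d i := by
  simp [dg, fc_back h]

theorem tr_fc {V : Matrix m m ℂ} (h : Vᴴ * V = 1) (d : m → ℝ) : tr (fc V d) = ∑ i, d i := by
  simp [← dg_sum h, dg_self h]

theorem dg_nonneg (V : Matrix m m ℂ) {Y : Matrix m m ℂ} (h : Y.PosSemidef) (i : m) :
    0 ≤ dg V Y i :=
  (Complex.nonneg_iff.1 ((h.conjTranspose_mul_mul_same V).diag_nonneg (i := i))).1

theorem dg_pos {V Y : Matrix m m ℂ} (hV : Vᴴ * V = 1) (h : Y.PosDef) (i : m) : 0 < dg V Y i :=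
  (Complex.pos_iff.1 ((conj_pd hV h).diag_pos (i := i))).1

theorem tr_mul_nonneg {X Y : Matrix m m ℂ} (hX : X.PosSemidef) (hY : Y.PosSemidef) :
    0 ≤ tr (X * Y) := by
  obtain ⟨U, d, h, e, -⟩ := spec hX.1
  rw [e] at hX ⊢
  rw [tr_fc_mul]
  exact sum_nonneg fun i _ => mul_nonneg (fc_nonneg h hX i) (dg_nonneg U hY i)

theorem dg_conj {V : Matrix m m ℂ} (h : Vᴴ * V = 1) (p : m → ℝ) (Y : Matrix m m ℂ) (i : m) :
    dg V (fc V p * Y * fc V p) i = p i ^ 2 * dg V Y i := by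
  have : Vᴴ * (fc V p * Y * fc V p) * V =
      diagonal (fun i => (p i : ℂ)) * (Vᴴ * Y * V) * diagonal (fun i => (p i : ℂ)) := by
    simp only [fc, ← mul_assoc, h, one_mul]
    rw [mul_assoc _ Vᴴ V, h, mul_one]
  rw [dg, this, mul_diagonal, diagonal_mul, dg]
  simp
  ring

theorem dg_fc (V U : Matrix m m ℂ) (d : m → ℝ) (i : m) :
    dg V (fc U d) i = ∑ j, Complex.normSq ((Vᴴ * U) i j) * d j := by
  have : Vᴴ * fc U d * V = (Vᴴ * U) * diagonal (fun i => (d i : ℂ)) * (Vᴴ * U)ᴴ := by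
    simp only [fc, conjTranspose_mul, conjTranspose_conjTranspose, mul_assoc]
  rw [dg, this, mul_apply, Complex.re_sum]
  refine sum_congr rfl fun j _ => ?_
  rw [mul_diagonal, conjTranspose_apply, mul_right_comm, Complex.star_def, Complex.mul_conj,
    ← Complex.ofReal_mul, Complex.ofReal_re]

theorem jensen {V U : Matrix m m ℂ} (hV : Vᴴ * V = 1) (hU : Uᴴ * U = 1) {s : Set ℝ} {f : ℝ → ℝ}
    (hf : ConvexOn ℝ s f) {d : m → ℝ} (hd : ∀ i, d i ∈ s) (i : m) :
    f (dg V (fc U d) i) ≤ dg V (fc U fun j => f (d j)) i := by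
  have h1 := dg_fc V U (fun _ => 1) i
  rw [fc_one hU, ← fc_one hV, dg_self hV] at h1
  simp only [mul_one] at h1
  rw [dg_fc, dg_fc]
  exact hf.map_sum_le (fun j _ => Complex.normSq_nonneg _) h1.symm fun j _ => hd j

theorem jensen' {V U : Matrix m m ℂ} (hV : Vᴴ * V = 1) (hU : Uᴴ * U = 1) {r : ℝ} (h0 : 0 ≤ r)
    (h1 : r ≤ 1) {d : m → ℝ} (hd : ∀ i, 0 ≤ d i) (i : m) :
    dg V (fc U fun j => d j ^ r) i ≤ dg V (fc U d) i ^ r := by
  have := jensen hV hU (Real.concaveOn_rpow h0 h1).neg hd i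
  simp only [dg_fc, Pi.neg_apply, mul_neg, sum_neg_distrib] at this ⊢
  linarith

end Pool.Agent.H.MP_7b724e_an
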