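import Pool.Agent.H.MP_7b724e_an.A

set_option autoImplicit false
set_option linter.unusedSectionVars false
open Matrix Finset
open scoped ComplexOrder

namespace Pool.Agent.H.MP_7b724e_an

variable {m : Type} [Fintype m] [DecidableEq m]

theorem peierls {U W : Matrix m m ℂ} (hU : Uᴴ * U = 1) (hW : Wᴴ * W = 1) {d : m → ℝ}
    (hd : ∀ i, 0 ≤ d i) {r : ℝ} (h0 : 0 ≤ r) (h1 : r ≤ 1) :
    ∑ i, d i ^ r ≤ ∑ i, dg W (fc U d) i ^ r := by
  rw [← tr_fc hU, ← dg_sum hW]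
  exact sum_le_sum fun i _ => jensen' hW hU h0 h1 hd i

theorem young {U W : Matrix m m ℂ} (hU : Uᴴ * U = 1) (hW : Wᴴ * W = 1) {d e : m → ℝ}
    (hd : ∀ i, 0 ≤ d i) (he : ∀ i, 0 < e i) {r : ℝ} (h0 : 0 ≤ r) (h1 : r < 1) :
    ∑ i, d i ^ r ≤ r * tr (fc W (fun i => (e i)⁻¹) * fc U d) +
      (1 - r) * ∑ i, e i ^ (r / (1 - r)) := by
  refine (peierls hU hW hd h0 h1.le).trans ?_
  rw [tr_fc_mul, mul_sum, mul_sum, ← sum_add_distrib]
  refine sum_le_sum fun i _ => ?_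
  have hm := dg_nonneg W (fc_psd U hd) i
  have hi := he i
  refine le_trans (le_of_eq ?_) (Real.geom_mean_le_arith_mean2_weighted h0 (sub_pos.2 h1).le
    (by positivity) (by positivity) (by ring))
  rw [← Real.rpow_mul hi.le, div_mul_cancel₀ _ (sub_pos.2 h1).ne',
    Real.mul_rpow (by positivity) hm, Real.inv_rpow hi.le]
  have := (Real.rpow_pos_of_pos hi r).ne'
  field_simp

def G (V W : Matrix m m ℂ) (x y : m → ℝ) (α β : ℝ) : Prop :=
  ∀ (U : Matrix m m ℂ) (d : m → ℝ), Uᴴ * U = 1 → (∀ i, 0 ≤ d i) →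
    fc U d = fc V (fun i => x i ^ (α / 2)) * fc W (fun i => y i ^ β) *
      fc V (fun i => x i ^ (α / 2)) →
    (α + β) * ∑ i, d i ^ (1 / (α + β)) ≤ α * ∑ i, x i + β * ∑ i, y i

theorem G_base {V W : Matrix m m ℂ} (hV : Vᴴ * V = 1) (hW : Wᴴ * W = 1) {x y : m → ℝ}
    (hx : ∀ i, 0 < x i) (hy : ∀ i, 0 < y i) {α β : ℝ} (ha : 0 ≤ α) (hb : 0 ≤ β) (hb1 : β ≤ 1)
    (hs : 1 ≤ α + β) : G V W x y α β := by
  intro U d hU hd e
  have hp : 0 < α + β := by linarith
  have h1 := peierls hU hV hd (r := 1 / (α + β)) (by positivity) ((div_le_one hp).2 hs)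
  refine (mul_le_mul_of_nonneg_left h1 hp.le).trans ?_
  rw [← tr_fc hW y, ← dg_sum hV, mul_sum, mul_sum, mul_sum, ← sum_add_distrib]
  refine sum_le_sum fun i _ => ?_
  have hi := hx i
  have ht := dg_nonneg V (fc_psd W fun j => (hy j).le) i
  have h2 := jensen' hV hW hb hb1 (fun j => (hy j).le) i
  have h3 := dg_nonneg V (fc_psd W fun j => (Real.rpow_pos_of_pos (hy j) β).le) i
  rw [e, dg_conj hV]
  set t := dg V (fc W y) i
  have h4 := Real.geom_mean_le_arith_mean2_weighted (w₁ := α / (α + β)) (w₂ := β / (α + β))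
    (by positivity) (by positivity) hi.le ht (by field_simp)
  have h5 : ((x i ^ (α / 2)) ^ 2 * dg V (fc W fun i => y i ^ β) i) ^ (1 / (α + β)) ≤
      x i ^ (α / (α + β)) * t ^ (β / (α + β)) := by
    refine (Real.rpow_le_rpow (by positivity) (mul_le_mul_of_nonneg_left h2 (by positivity))
      (by positivity)).trans (le_of_eq ?_)
    rw [Real.mul_rpow (by positivity) (by positivity), ← Real.rpow_natCast, ← Real.rpow_mul hi.le,
      ← Real.rpow_mul hi.le, ← Real.rpow_mul ht]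
    congr 2
    · push_cast; ring
    · ring
  refine (mul_le_mul_of_nonneg_left (h5.trans h4) hp.le).trans (le_of_eq ?_)
  field_simp

theorem G_step {V W : Matrix m m ℂ} (hV : Vᴴ * V = 1) (hW : Wᴴ * W = 1) {x y : m → ℝ}
    (hx : ∀ i, 0 < x i) (hy : ∀ i, 0 < y i) {α β : ℝ} (hs : 0 < α + β)
    (h : G V W x y α β) : G V W x y α (β + 1) := by
  intro U d hU hd e
  have p1 : ∀ i, x i ^ (α / 2) ≠ 0 := fun i => (Real.rpow_pos_of_pos (hx i) _).ne'
  have p2 : ∀ i, y i ^ β ≠ 0 := fun i => (Real.rpow_pos_of_pos (hy i) _).ne'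
  have i1 := fc_inv hV p1
  have i2 := fc_inv hW p2
  have i1' := mul_eq_one_comm.1 i1
  have pd := conj_pd i1' (fc_pd hW fun i => Real.rpow_pos_of_pos (hy i) β)
  rw [fc_herm] at pd
  obtain ⟨Z, c, hZ, e2, -⟩ := spec pd.1
  have hc : ∀ i, 0 < c i := fc_pos hZ (e2 ▸ pd)
  have h1 := h Z c hZ (fun i => (hc i).le) e2.symm
  have hp : 0 < α + (β + 1) := by linarith
  have h2 := young hU hZ hd hc (r := 1 / (α + (β + 1))) (by positivity)
    ((div_lt_one hp).2 (by linarith))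
  have i3 := mul_eq_one_comm.1 (fc_inv hZ fun i => (hc i).ne')
  have e3 : fc W (fun i => y i ^ (β + 1)) = fc W (fun i => y i ^ β) * fc W y := by
    simp only [fc_mul hW, Real.rpow_add_one (hy _).ne']
  have e4 : tr (fc Z (fun i => (c i)⁻¹) * fc U d) = ∑ i, y i := by
    rw [e, e3, ← tr_fc hW]
    set P := fc V fun i => x i ^ (α / 2)
    set P' := fc V fun i => (x i ^ (α / 2))⁻¹
    set Y := fc W fun i => y i ^ β
    have : P * (Y * fc W y) * P = (P * Y * P) * (P' * fc W y * P) := by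
      simp only [mul_assoc]
      rw [← mul_assoc P P', i1, one_mul]
    rw [this, e2, ← mul_assoc, i3, one_mul, tr_comm, ← mul_assoc, i1, one_mul]
  have e6 : 1 - 1 / (α + (β + 1)) = (α + β) / (α + (β + 1)) := by
    field_simp
    ring
  rw [e4, show 1 / (α + (β + 1)) / (1 - 1 / (α + (β + 1))) = 1 / (α + β) by
    rw [e6, div_div_div_cancel_right₀ hp.ne']] at h2
  have h3 := mul_le_mul_of_nonneg_left h2 hp.le
  have e5 : (α + (β + 1)) * (1 / (α + (β + 1)) * ∑ i, y i +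
      (1 - 1 / (α + (β + 1))) * ∑ i, c i ^ (1 / (α + β))) =
      ∑ i, y i + (α + β) * ∑ i, c i ^ (1 / (α + β)) := by
    field_simp
    ring
  linarith

theorem G_all {V W : Matrix m m ℂ} (hV : Vᴴ * V = 1) (hW : Wᴴ * W = 1) {x y : m → ℝ}
    (hx : ∀ i, 0 < x i) (hy : ∀ i, 0 < y i) {α : ℝ} (ha : 1 / 2 ≤ α) : G V W x y α α := by
  rcases le_total α 1 with h1 | h1
  · exact G_base hV hW hx hy (by linarith) (by linarith) h1 (by linarith)
  have key : ∀ k : ℕ, ∀ β, 0 ≤ β → β ≤ 1 → G V W x y α (β + k) := by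
    intro k β h0 h2
    induction k with
    | zero => simpa using G_base hV hW hx hy (by linarith) h0 h2 (by linarith)
    | succ k ih =>
      have hk : (0 : ℝ) ≤ k := k.cast_nonneg
      have := G_step hV hW hx hy (by linarith) ih
      rwa [add_assoc, ← Nat.cast_succ] at this
  have := key ⌊α⌋₊ (α - ⌊α⌋₊) (by linarith [Nat.floor_le (by linarith : 0 ≤ α)])
    (by linarith [Nat.lt_floor_add_one α])
  rwa [sub_add_cancel] at this

theorem cvx {q : ℝ} (hq : q < 0) : ConvexOn ℝ (Set.Ioi 0) fun x : ℝ => x ^ q := by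
  refine ⟨convex_Ioi 0, fun x hx y hy a b ha hb hab => ?_⟩
  have hx : 0 < x := hx
  have hy : 0 < y := hy
  have h1 := Real.geom_mean_le_arith_mean2_weighted ha hb hx.le hy.le hab
  have h2 := Real.geom_mean_le_arith_mean2_weighted ha hb (Real.rpow_pos_of_pos hx q).le
    (Real.rpow_pos_of_pos hy q).le hab
  refine (Real.rpow_le_rpow_of_nonpos (by positivity) h1 hq.le).trans (le_trans (le_of_eq ?_) h2)
  rw [Real.mul_rpow (by positivity) (by positivity), ← Real.rpow_mul hx.le, ← Real.rpow_mul hy.le,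
    ← Real.rpow_mul hx.le, ← Real.rpow_mul hy.le, mul_comm a, mul_comm b]

theorem tr_cvx {V W Z : Matrix m m ℂ} (hV : Vᴴ * V = 1) (hW : Wᴴ * W = 1) (hZ : Zᴴ * Z = 1)
    {a b c : m → ℝ} (ha : ∀ i, 0 < a i) (hb : ∀ i, 0 < b i) (e : fc V a + fc W b = fc Z c)
    {q : ℝ} (hq : q < 0) : 2 * ∑ i, c i ^ q ≤ 2 ^ q * (∑ i, a i ^ q + ∑ i, b i ^ q) := by
  rw [← tr_fc hV fun i => a i ^ q, ← tr_fc hW fun i => b i ^ q, ← dg_sum hZ, ← dg_sum hZ,
    ← sum_add_distrib, mul_sum, mul_sum]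
  refine sum_le_sum fun i _ => ?_
  have h1 := jensen hZ hV (cvx hq) ha i
  have h2 := jensen hZ hW (cvx hq) hb i
  have p1 := dg_pos hZ (fc_pd hV ha) i
  have p2 := dg_pos hZ (fc_pd hW hb) i
  have h3 := (cvx hq).2 p1 p2 (show (0 : ℝ) ≤ 1 / 2 by norm_num)
    (show (0 : ℝ) ≤ 1 / 2 by norm_num) (by norm_num)
  have e1 : c i = 2 * (1 / 2 * dg Z (fc V a) i + 1 / 2 * dg Z (fc W b) i) := by
    rw [← dg_self hZ c i, ← e, dg_add]
    ring
  have p4 : 0 ≤ 1 / 2 * dg Z (fc V a) i + 1 / 2 * dg Z (fc W b) i := by linarith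
  rw [e1, Real.mul_rpow zero_le_two p4, mul_left_comm]
  simp only [smul_eq_mul] at h3
  exact mul_le_mul_of_nonneg_left (by linarith) (Real.rpow_nonneg zero_le_two q)

noncomputable def pw (A : Matrix m m ℂ) (q : ℝ) : Matrix m m ℂ := cfc (fun x : ℝ => x ^ q) A

theorem q1 {A B : Matrix m m ℂ} (hA : A.PosDef) (hB : B.PosDef) {q : ℝ} (h2 : -2 < q)
    (hq : q < 0) : tr (pw (A + B) q) ≤ tr (pw A q) + tr (pw B q) +
      (2 ^ q - 2) * tr (pw (pw A (1 / 2) * B * pw A (1 / 2)) (q / 2)) := by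
  obtain ⟨V, a, hV, eA, fA⟩ := spec hA.1
  obtain ⟨W, b, hW, eB, fB⟩ := spec hB.1
  obtain ⟨Z, c, hZ, eC, fC⟩ := spec (hA.add hB).1
  have ha := fc_pos hV (eA ▸ hA)
  have hb := fc_pos hW (eB ▸ hB)
  have p1 : ∀ i, a i ^ (1 / 2 : ℝ) ≠ 0 := fun i => (Real.rpow_pos_of_pos (ha i) _).ne'
  have i1 := fc_inv hV p1
  have i1' := mul_eq_one_comm.1 i1
  have i2 := fc_inv hW fun i => (hb i).ne'
  have pd := conj_pd i1' hB
  rw [fc_herm] at pd
  obtain ⟨U, d, hU, eD, fD⟩ := spec pd.1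
  have hd := fc_pos hU (eD ▸ pd)
  have k1 := tr_cvx hV hW hZ ha hb (by rw [← eA, ← eB, eC]) hq
  have hq' : 0 < -q := by linarith
  have hq0 := hq.ne
  have k2 := G_all hV hW (x := fun i => a i ^ q) (y := fun i => b i ^ q)
    (fun i => Real.rpow_pos_of_pos (ha i) _) (fun i => Real.rpow_pos_of_pos (hb i) _)
    (α := 1 / -q) (one_div_le_one_div_of_le hq' (by linarith)) U (fun i => (d i)⁻¹) hU
    (fun i => (inv_pos.2 (hd i)).le) (by
      have e1 : ∀ i, (a i ^ q) ^ (1 / -q / 2) = (a i ^ (1 / 2 : ℝ))⁻¹ := fun i => by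
        rw [← Real.rpow_mul (ha i).le, ← Real.rpow_neg (ha i).le]
        congr 1
        field_simp
      have e2 : ∀ i, (b i ^ q) ^ (1 / -q) = (b i)⁻¹ := fun i => by
        rw [← Real.rpow_mul (hb i).le, ← Real.rpow_neg_one]
        congr 1
        field_simp
      simp only [e1, e2]
      refine left_inv_eq_right_inv (mul_eq_one_comm.1 (fc_inv hU fun i => (hd i).ne')) ?_
      rw [← eD, eB]
      set P := fc V fun i => a i ^ (1 / 2 : ℝ)
      set P' := fc V fun i => (a i ^ (1 / 2 : ℝ))⁻¹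
      simp only [mul_assoc]
      rw [← mul_assoc P P', i1, one_mul, ← mul_assoc (fc W b), i2, one_mul, i1])
  have e3 : ∀ i, (d i)⁻¹ ^ (1 / (1 / -q + 1 / -q)) = d i ^ (q / 2) := fun i => by
    rw [Real.inv_rpow (hd i).le, ← Real.rpow_neg (hd i).le]
    congr 1
    field_simp
    ring
  simp only [e3] at k2
  simp only [pw, fA, fB, fC, fD, tr_fc hV, tr_fc hW, tr_fc hZ, tr_fc hU]
  have p2 : 0 < 1 / -q := by positivity
  have k3 : 2 * ∑ i, d i ^ (q / 2) ≤ ∑ i, a i ^ q + ∑ i, b i ^ q :=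
    le_of_mul_le_mul_left (by linarith) p2
  have p3 : (2 : ℝ) ^ q ≤ 1 := Real.rpow_le_one_of_one_le_of_nonpos one_le_two hq.le
  nlinarith

end Pool.Agent.H.MP_7b724e_an
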