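import Pool.Agent.H.MP_7b724e_an.B

set_option autoImplicit false
set_option linter.unusedSectionVars false
open Matrix Finset
open scoped ComplexOrder

namespace Pool.Agent.H.MP_7b724e_an

variable {m : Type} [Fintype m] [DecidableEq m]

theorem conj_psd {K X : Matrix m m ℂ} (hK : Kᴴ = K) (hX : X.PosSemidef) :
    (K * X * K).PosSemidef := by
  have := hX.conjTranspose_mul_mul_same K
  rwa [hK] at this

theorem tr_sq {X : Matrix m m ℂ} (hX : Xᴴ = X) : 0 ≤ tr (X * X) := by
  simpa using tr_nonneg (conj_psd hX PosSemidef.one)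

theorem mono2 {K X Y : Matrix m m ℂ} (hK : Kᴴ = K) (hX : X.PosSemidef)
    (h : (Y - X).PosSemidef) : tr (X * K * (X * K)) ≤ tr (Y * K * (Y * K)) := by
  have hY : Y.PosSemidef := by simpa using h.add hX
  have h1 := tr_mul_nonneg h (conj_psd hK hX)
  have h2 := tr_mul_nonneg h (conj_psd hK hY)
  have h3 := tr_comm (X * K) (Y * K)
  simp only [sub_mul, tr_sub, mul_assoc] at h1 h2 h3 ⊢
  linarith

theorem inv_anti {A B A' B' : Matrix m m ℂ} (a1 : A * A' = 1) (b1 : B * B' = 1) (hB : B'ᴴ = B')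
    (hA : A'.PosSemidef) (h : (B - A).PosSemidef) : (A' - B').PosSemidef := by
  have a2 := mul_eq_one_comm.1 a1
  have b2 := mul_eq_one_comm.1 b1
  have h1 := (conj_psd hB h).add (conj_psd hB (conj_psd h.1 hA))
  have e1 : B' * (B - A) = 1 - B' * A := by rw [mul_sub, b2]
  have e2 : (B - A) * B' = 1 - A * B' := by rw [sub_mul, b1]
  have e3 : B' * ((B - A) * A' * (B - A)) * B' = (B' * (B - A)) * A' * ((B - A) * B') := by
    simp only [mul_assoc]
  have e4 : (1 - B' * A) * A' = A' - B' := by rw [sub_mul, one_mul, mul_assoc, a1, mul_one]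
  have e5 : (A' - B') * (1 - A * B') = A' - B' - B' + B' * A * B' := by
    rw [mul_sub, sub_mul, sub_mul, ← mul_assoc A', a2]
    noncomm_ring
  rw [e3, e1, e2, e4, e5] at h1
  rwa [show (1 - B' * A) * B' + (A' - B' - B' + B' * A * B') = A' - B' by noncomm_ring] at h1

noncomputable def mm (z : ℝ) : ℝ := 1 - max (1 - z / 2) 0 ^ 2

theorem lemL {W V : Matrix m m ℂ} (hW : Wᴴ * W = 1) (hV : Vᴴ * V = 1) {z q : m → ℝ}
    (hz : ∀ i, 0 ≤ z i) (h0 : ∀ i, 0 < q i) (h1 : ∀ i, q i < 1) :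
    ∃ Q' : Matrix m m ℂ, Q'.PosSemidef ∧ (fc V q - Q').PosSemidef ∧
      tr (fc W z * Q') + tr ((1 - Q') * (1 - Q')) ≤
        ∑ i, mm (z i) + tr ((1 - fc V q) * (1 - fc V q)) := by
  have h2 : ∀ i, 0 < 1 - q i := fun i => sub_pos.2 (h1 i)
  set g : m → ℝ := fun i => max (1 - z i / 2) 0 with hg
  have g0 : ∀ i, 0 ≤ g i := fun i => le_max_right _ _
  have g1 : ∀ i, g i ≤ 1 := fun i => max_le (by linarith [hz i]) zero_le_one
  have pG := fc_psd W g0
  have pG1 : (1 - fc W g).PosSemidef := by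
    rw [← fc_one hW, fc_sub]
    exact fc_psd W fun i => sub_nonneg.2 (g1 i)
  have pG2 : (fc W g - fc W g * fc W g).PosSemidef := by
    rw [fc_mul hW, fc_sub]
    exact fc_psd W fun i => by nlinarith [g0 i, g1 i]
  have pGG : (fc W g * fc W g).PosSemidef := by
    rw [fc_mul hW]
    exact fc_psd W fun i => mul_self_nonneg _
  have eZ : (fc W z - (1 - fc W g) - (1 - fc W g)) * fc W g = 0 := by
    rw [← fc_one hW, fc_sub, fc_sub, fc_sub, fc_mul hW, ← sub_self (fc W g), fc_sub]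
    congr 1
    ext i
    simp only [hg]
    rcases le_total (1 - z i / 2) 0 with h | h
    · simp [max_eq_right h]
    · rw [max_eq_left h]; ring
  have eS : tr (fc W z * fc W g) + tr ((1 - fc W g) * (1 - fc W g)) = ∑ i, mm (z i) := by
    rw [← fc_one hW, fc_sub, fc_mul hW, fc_mul hW, tr_fc hW, tr_fc hW, ← sum_add_distrib]
    refine sum_congr rfl fun i _ => ?_
    simp only [hg, mm]
    rcases le_total (1 - z i / 2) 0 with h | h
    · simp [max_eq_right h]
    · rw [max_eq_left h]; ring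
  have pM := fc_pd hV fun i => div_pos (h0 i) (h2 i)
  have iM := fc_inv hV fun i => (div_pos (h0 i) (h2 i)).ne'
  have pMi := fc_psd V fun i => (inv_pos.2 (div_pos (h0 i) (h2 i))).le
  have eX : 1 - fc V q = fc V fun i => 1 - q i := by rw [← fc_one hV, fc_sub]
  have iX : (1 + fc V fun i => q i / (1 - q i)) * (1 - fc V q) = 1 := by
    rw [eX, ← fc_one hV, fc_add, fc_mul hV]
    congr 1
    ext i
    have := (h2 i).ne'
    field_simp
    ring
  have eXM : (1 - fc V q) * (fc V fun i => q i / (1 - q i)) * (1 - fc V q) =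
      fc V q - fc V q * fc V q := by
    rw [eX, fc_mul hV, fc_mul hV, fc_mul hV, fc_sub]
    congr 1
    ext i
    have := (h2 i).ne'
    field_simp
  have hX : (1 - fc V q)ᴴ = 1 - fc V q := by rw [eX, fc_herm]
  have hQ := fc_herm V q
  have pS := pM.posSemidef_add pG
  obtain ⟨Y, s, hY, eY, -⟩ := spec pS.1
  have hs := fc_pos hY (eY ▸ pS)
  have iK := fc_inv hY fun i => (hs i).ne'
  have pK := fc_psd Y fun i => (inv_pos.2 (hs i)).le
  rw [← eY] at iK
  set K := fc Y fun i => (s i)⁻¹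
  set M := fc V fun i => q i / (1 - q i)
  set M' := fc V fun i => (q i / (1 - q i))⁻¹
  set G := fc W g
  set Q := fc V q
  set Z := fc W z
  clear_value K M M' G Q Z
  have hK : Kᴴ = K := pK.1
  have hG : Gᴴ = G := pG.1
  have hM : Mᴴ = M := pM.1
  have iK' := mul_eq_one_comm.1 iK
  have k1 : K * M = 1 - K * G := by rw [← iK']; noncomm_ring
  have k2 : M * K = 1 - G * K := by rw [← iK]; noncomm_ring
  refine ⟨G - G * K * G, ?_, ?_, ?_⟩
  · have := (pG.conjTranspose_mul_mul_same (K * M)).add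
      (pM.posSemidef.conjTranspose_mul_mul_same (K * G))
    rw [conjTranspose_mul, conjTranspose_mul, hK, hG, hM, mul_assoc G K M, k1, k2] at this
    rwa [show (1 - G * K) * G * (1 - K * G) + G * (1 - K * G) * (K * G) = G - G * K * G by
      noncomm_ring] at this
  · have := (conj_psd hQ pG1).add (pS.posSemidef.conjTranspose_mul_mul_same (1 - Q - K * G))
    rw [conjTranspose_sub, conjTranspose_mul, hK, hG, hX] at this
    have e1 : (1 - Q - G * K) * (G + M) * (1 - Q - K * G) = (1 - Q) * G * (1 - Q) +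
        (1 - Q) * M * (1 - Q) - (1 - Q) * ((G + M) * K) * G - G * (K * (G + M)) * (1 - Q) +
        G * (K * (G + M)) * K * G := by noncomm_ring
    rw [e1, eXM, iK, iK'] at this
    rwa [show Q * (1 - G) * Q + ((1 - Q) * G * (1 - Q) + (Q - Q * Q) - (1 - Q) * 1 * G -
      G * 1 * (1 - Q) + G * 1 * K * G) = Q - (G - G * K * G) by noncomm_ring] at this
  · have a1 := mono2 hK pGG pG2
    have a2 := inv_anti iM iK hK pMi (by simpa using pG)
    have a3 := inv_anti iK iX hX pK (by simpa using pG1)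
    have a4 := mono2 (Y := M' - (1 - Q)) hM a2 (by simpa using a3)
    have iM' := mul_eq_one_comm.1 iM
    have iX' := mul_eq_one_comm.1 iX
    have b1 : (M' - K) * M = K * G := by rw [sub_mul, iM', k1, sub_sub_cancel]
    have b2 : (M' - (1 - Q)) * M = 1 - Q := by
      rw [sub_mul, iM', sub_eq_iff_eq_add, ← mul_one_add, iX']
    rw [b1, b2] at a4
    have b3 : tr (G * K * (G * K)) = tr (K * G * (K * G)) := by
      rw [mul_assoc, tr_comm]
      simp only [mul_assoc]
    have b4 : tr (G * K * G * (G * K * G)) = tr (G * G * K * (G * G * K)) := by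
      rw [← mul_assoc, tr_comm]
      simp only [mul_assoc]
    have b5 : tr ((Z - (1 - G) - (1 - G)) * (G * K * G)) = 0 := by
      rw [← mul_assoc, ← mul_assoc, eZ]
      simp [tr]
    have b6 := tr_comm (1 - G) (G * K * G)
    rw [show 1 - (G - G * K * G) = (1 - G) + G * K * G by abel]
    set a := 1 - G
    set X := 1 - Q
    set D := G * K * G
    clear_value a X D
    simp only [mul_add, add_mul, mul_sub, sub_mul, tr_add, tr_sub] at b5 ⊢
    linarith

noncomputable def zf (e : ℝ) : ℝ := max 0 (min (4 * e - 2) (2 * e))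

theorem zf_le (e : ℝ) : mm (zf e) + mm (zf (-e)) + 2 * (e * e) - 2 * ((zf e - zf (-e)) * e) +
    (zf e - zf (-e)) * (zf e - zf (-e)) / 2 ≤
      max (1 - 2 * |e|) 0 ^ 2 + 1 - 2 * max (1 - |e|) 0 ^ 2 := by
  wlog h : 0 ≤ e generalizing e
  · have := this (-e) (by linarith)
    rw [neg_neg, abs_neg] at this
    linarith
  have h0 : zf (-e) = 0 := max_eq_left (min_le_of_right_le (by linarith))
  rw [h0, abs_of_nonneg h]
  rcases le_total e (1 / 2) with h1 | h1
  · have : zf e = 0 := max_eq_left (min_le_of_left_le (by linarith))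
    rw [this, max_eq_left (by linarith : 0 ≤ 1 - 2 * e), max_eq_left (by linarith : 0 ≤ 1 - e)]
    simp only [mm]
    norm_num
    nlinarith
  rcases le_total e 1 with h2 | h2
  · have : zf e = 4 * e - 2 := by
      rw [zf, min_eq_left (by linarith), max_eq_right (by linarith)]
    rw [this, max_eq_right (by linarith : 1 - 2 * e ≤ 0), max_eq_left (by linarith : 0 ≤ 1 - e)]
    simp only [mm]
    rw [max_eq_left (by linarith : 0 ≤ 1 - (4 * e - 2) / 2)]
    norm_num
    nlinarith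
  · have : zf e = 2 * e := by
      rw [zf, min_eq_right (by linarith), max_eq_right (by linarith)]
    rw [this, max_eq_right (by linarith : 1 - 2 * e ≤ 0), max_eq_right (by linarith : 1 - e ≤ 0)]
    simp only [mm]
    rw [max_eq_right (by linarith : 1 - 2 * e / 2 ≤ 0)]
    norm_num
    nlinarith

theorem core {W₁ W₂ W₃ W₄ : Matrix m m ℂ} (h₁ : W₁ᴴ * W₁ = 1) (h₂ : W₂ᴴ * W₂ = 1)
    (h₃ : W₃ᴴ * W₃ = 1) (h₄ : W₄ᴴ * W₄ = 1) {u v d e p q : m → ℝ} (hu : ∀ i, 0 ≤ u i)
    (hv : ∀ i, 0 ≤ v i) (eU : fc W₁ u = fc W₃ d + fc W₄ e) (eV : fc W₂ v = fc W₃ d - fc W₄ e)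
    (p0 : ∀ i, 0 < p i) (p1 : ∀ i, p i < 1) (q0 : ∀ i, 0 < q i) (q1 : ∀ i, q i < 1) :
    ∑ i, (2 * p i - 2 * (p i * u i) - p i * p i) + ∑ i, (2 * q i - 2 * (q i * v i) - q i * q i) ≤
      2 * ∑ i, max (1 - d i) 0 * max (1 - d i) 0 +
        ∑ i, (max (1 - 2 * |e i|) 0 ^ 2 + 1 - 2 * max (1 - |e i|) 0 ^ 2) := by
  have z0 : ∀ x, 0 ≤ zf x := fun x => le_max_left _ _
  obtain ⟨P', a1, a2, a3⟩ := lemL h₄ h₁ (fun i => z0 (-e i)) p0 p1
  obtain ⟨Q', b1, b2, b3⟩ := lemL h₄ h₂ (fun i => z0 (e i)) q0 q1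
  have f3 := tr_mul_nonneg a2 (fc_psd W₁ hu)
  have f4 := tr_mul_nonneg b2 (fc_psd W₂ hv)
  have f5 := tr_mul_nonneg (a1.add b1) (fc_psd W₃ fun i => le_max_right (d i - 1) 0)
  have f8 := tr_mul_nonneg (fc_psd W₄ fun i => z0 (e i)) a1
  have f9 := tr_mul_nonneg (fc_psd W₄ fun i => z0 (-e i)) b1
  have eD : fc W₃ d = 1 - fc W₃ (fun i => max (1 - d i) 0) + fc W₃ fun i => max (d i - 1) 0 := by
    rw [← fc_one h₃, fc_sub, fc_add]
    congr 1
    ext i
    rcases le_total (d i) 1 with h | h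
    · rw [max_eq_left (by linarith), max_eq_right (by linarith)]; ring
    · rw [max_eq_right (by linarith), max_eq_left (by linarith)]; ring
  have eZ := fc_sub W₄ (fun i => zf (e i)) fun i => zf (-e i)
  have f6 := tr_sq (X := P' + Q' - fc W₃ (fun i => max (1 - d i) 0) -
    fc W₃ fun i => max (1 - d i) 0) (by
      rw [conjTranspose_sub, conjTranspose_sub, conjTranspose_add, fc_herm, a1.1, b1.1])
  have f7 := tr_sq (X := fc W₄ e + fc W₄ e + P' - Q' - fc W₄ fun i => zf (e i) - zf (-e i)) (by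
      rw [conjTranspose_sub, conjTranspose_sub, conjTranspose_add, conjTranspose_add, fc_herm,
        fc_herm, a1.1, b1.1])
  have s1 := tr_fc h₁ p
  have s2 := tr_fc h₂ q
  have s3 := (congrArg tr (fc_mul h₁ p u)).trans (tr_fc h₁ _)
  have s4 := (congrArg tr (fc_mul h₂ q v)).trans (tr_fc h₂ _)
  have s5 := (congrArg tr (fc_mul h₁ p p)).trans (tr_fc h₁ _)
  have s6 := (congrArg tr (fc_mul h₂ q q)).trans (tr_fc h₂ _)
  have s7 := (congrArg tr (fc_mul h₃ (fun i => max (1 - d i) 0) fun i => max (1 - d i) 0)).trans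
    (tr_fc h₃ _)
  have s8 := (congrArg tr (fc_mul h₄ e e)).trans (tr_fc h₄ _)
  have s9 := (congrArg tr (fc_mul h₄ (fun i => zf (e i) - zf (-e i)) e)).trans (tr_fc h₄ _)
  have s10 := (congrArg tr (fc_mul h₄ (fun i => zf (e i) - zf (-e i))
    fun i => zf (e i) - zf (-e i))).trans (tr_fc h₄ _)
  have s11 := sum_le_sum fun i (_ : i ∈ univ) => zf_le (e i)
  have c1 : tr (P' * fc W₁ u) = tr (P' * (fc W₃ d + fc W₄ e)) := by rw [eU]
  have c2 : tr (Q' * fc W₂ v) = tr (Q' * (fc W₃ d - fc W₄ e)) := by rw [eV]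
  have c3 : tr (fc W₄ (fun i => zf (e i) - zf (-e i)) * (P' - Q')) =
      tr ((fc W₄ (fun i => zf (e i)) - fc W₄ fun i => zf (-e i)) * (P' - Q')) := by rw [eZ]
  rw [eD] at c1 c2
  set Z := fc W₄ fun i => zf (e i) - zf (-e i)
  set Zp := fc W₄ fun i => zf (e i)
  set Zm := fc W₄ fun i => zf (-e i)
  set Y := fc W₃ fun i => max (1 - d i) 0
  set Yn := fc W₃ fun i => max (d i - 1) 0
  set E := fc W₄ e
  set P := fc W₁ p
  set Q := fc W₂ q
  set U := fc W₁ u
  set V := fc W₂ v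
  clear_value Z Zp Zm Y Yn E P Q U V
  have t1 := tr_comm P' Q'
  have t2 := tr_comm P' Y
  have t3 := tr_comm Q' Y
  have t4 := tr_comm P' E
  have t5 := tr_comm Q' E
  have t6 := tr_comm P' Z
  have t7 := tr_comm Q' Z
  have t8 := tr_comm E Z
  simp only [mul_add, add_mul, mul_sub, sub_mul, tr_add, tr_sub, mul_one, one_mul]
    at a3 b3 f3 f4 f5 f6 f7 c1 c2 c3
  simp only [sum_add_distrib, sum_sub_distrib, ← mul_sum, ← sum_div] at s11 ⊢
  linarith

end Pool.Agent.H.MP_7b724e_an
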