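import Pool.Agent.H.MP_7b724e_an.C

set_option autoImplicit false
set_option linter.unusedSectionVars false
open Matrix Finset
open scoped ComplexOrder

namespace Pool.Agent.H.MP_7b724e_an

variable {m : Type} [Fintype m] [DecidableEq m]

theorem mx (x : ℝ) : max (x - 1) 0 ^ 2 = x * x - 2 * x + 1 - max (1 - x) 0 * max (1 - x) 0 := by
  rcases le_total x 1 with h | h
  · rw [max_eq_right (by linarith), max_eq_left (by linarith)]; ring
  · rw [max_eq_left (by linarith), max_eq_right (by linarith)]; ring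

theorem core1 {W₁ W₂ W₃ W₄ : Matrix m m ℂ} (h₁ : W₁ᴴ * W₁ = 1) (h₂ : W₂ᴴ * W₂ = 1)
    (h₃ : W₃ᴴ * W₃ = 1) (h₄ : W₄ᴴ * W₄ = 1) {u v d e : m → ℝ} (hu : ∀ i, 0 ≤ u i)
    (hv : ∀ i, 0 ≤ v i) (eU : fc W₁ u = fc W₃ d + fc W₄ e) (eV : fc W₂ v = fc W₃ d - fc W₄ e) :
    2 * ∑ i, max (d i - 1) 0 ^ 2 + ∑ i, max (2 * |e i| - 1) 0 ^ 2 ≤
      ∑ i, max (u i - 1) 0 ^ 2 + ∑ i, max (v i - 1) 0 ^ 2 + 2 * ∑ i, max (|e i| - 1) 0 ^ 2 := by
  set p : ℝ → ℝ → ℝ := fun x ε => (1 - ε) * max (1 - x) 0 + ε / 2 with hp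
  have pb : ∀ x ≥ 0, ∀ ε ∈ Set.Ioo (0 : ℝ) 1, 0 < p x ε ∧ p x ε < 1 := by
    intro x hx ε hε
    have a1 := le_max_right (1 - x) 0
    have a2 : max (1 - x) 0 ≤ 1 := max_le (by linarith) zero_le_one
    obtain ⟨a3, a4⟩ := hε
    simp only [hp]
    constructor <;> nlinarith
  have lim : Filter.Tendsto (fun ε => ∑ i, (2 * p (u i) ε - 2 * (p (u i) ε * u i) -
      p (u i) ε * p (u i) ε) + ∑ i, (2 * p (v i) ε - 2 * (p (v i) ε * v i) -
      p (v i) ε * p (v i) ε)) (nhdsWithin 0 (Set.Ioi 0)) _ :=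
    (Continuous.tendsto (by simp only [hp]; fun_prop) 0).mono_left nhdsWithin_le_nhds
  have k1 := le_of_tendsto lim (Filter.mem_of_superset (Ioo_mem_nhdsGT one_pos) fun ε hε =>
    core h₁ h₂ h₃ h₄ hu hv eU eV (fun i => (pb _ (hu i) ε hε).1) (fun i => (pb _ (hu i) ε hε).2)
      (fun i => (pb _ (hv i) ε hε).1) fun i => (pb _ (hv i) ε hε).2)
  have e0 : ∀ x, 2 * p x 0 - 2 * (p x 0 * x) - p x 0 * p x 0 =
      max (1 - x) 0 * max (1 - x) 0 := by
    intro x
    simp only [hp]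
    rcases le_total x 1 with h | h
    · rw [max_eq_left (by linarith)]; ring
    · rw [max_eq_right (by linarith)]; ring
  simp only [e0] at k1
  have s1 := congrArg tr eU
  have s2 := congrArg tr eV
  have s3 := congrArg tr (fc_mul h₁ u u)
  have s4 := congrArg tr (fc_mul h₂ v v)
  rw [eU] at s3
  rw [eV] at s4
  simp only [mul_add, add_mul, mul_sub, sub_mul, tr_add, tr_sub, fc_mul h₃, fc_mul h₄, tr_fc h₁,
    tr_fc h₂, tr_fc h₃, tr_fc h₄] at s1 s2 s3 s4
  have s5 : ∑ i, |e i| * |e i| = ∑ i, e i * e i := by simp only [abs_mul_abs_self]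
  have s6 : ∑ i, 2 * |e i| * (2 * |e i|) = 4 * ∑ i, e i * e i := by
    rw [← s5, mul_sum]
    exact sum_congr rfl fun i _ => by ring
  simp only [sq, sum_add_distrib, sum_sub_distrib, ← mul_sum] at k1
  simp only [mx, sum_add_distrib, sum_sub_distrib, ← mul_sum]
  linarith

theorem core2 {W₁ W₂ W₃ W₄ : Matrix m m ℂ} (h₁ : W₁ᴴ * W₁ = 1) (h₂ : W₂ᴴ * W₂ = 1)
    (h₃ : W₃ᴴ * W₃ = 1) (h₄ : W₄ᴴ * W₄ = 1) {u v d e : m → ℝ} (hu : ∀ i, 0 ≤ u i)
    (hv : ∀ i, 0 ≤ v i) (eU : fc W₁ u = fc W₃ d + fc W₄ e) (eV : fc W₂ v = fc W₃ d - fc W₄ e)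
    {c : ℝ} (hc : 0 < c) :
    2 * ∑ i, max (d i - c) 0 ^ 2 + ∑ i, max (2 * |e i| - c) 0 ^ 2 ≤
      ∑ i, max (u i - c) 0 ^ 2 + ∑ i, max (v i - c) 0 ^ 2 + 2 * ∑ i, max (|e i| - c) 0 ^ 2 := by
  have hc' := inv_pos.2 hc
  have h := core1 h₁ h₂ h₃ h₄ (u := fun i => c⁻¹ * u i) (v := fun i => c⁻¹ * v i)
    (d := fun i => c⁻¹ * d i) (e := fun i => c⁻¹ * e i) (fun i => mul_nonneg hc'.le (hu i))
    (fun i => mul_nonneg hc'.le (hv i)) (by simp only [fc_smul, eU, smul_add])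
    (by simp only [fc_smul, eV, smul_sub])
  have e1 : ∀ x, max (c⁻¹ * x - 1) 0 ^ 2 = c⁻¹ ^ 2 * max (x - c) 0 ^ 2 := fun x => by
    rw [← mul_pow, mul_max_of_nonneg _ _ hc'.le, mul_sub, inv_mul_cancel₀ hc.ne', mul_zero]
  simp only [abs_mul, abs_of_pos hc', mul_left_comm 2 c⁻¹, e1, ← mul_sum] at h
  exact le_of_mul_le_mul_left (by linarith) (pow_pos hc' 2)

theorem rep {q x R : ℝ} (hq : 3 < q) (hx : 0 ≤ x) (hR : x ≤ R) :
    ∫ c in (0 : ℝ)..R, max (x - c) 0 ^ 2 * c ^ (q - 3) =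
      (1 / (q - 2) - 2 / (q - 1) + 1 / q) * x ^ q := by
  have hc : Continuous fun c : ℝ => c ^ (q - 3) := Real.continuous_rpow_const (by linarith)
  have i1 : ∀ a b, IntervalIntegrable (fun c : ℝ => max (x - c) 0 ^ 2 * c ^ (q - 3))
      MeasureTheory.volume a b := fun a b => Continuous.intervalIntegrable (by fun_prop) a b
  rw [← intervalIntegral.integral_add_adjacent_intervals (i1 0 x) (i1 x R)]
  have e1 : ∫ c in x..R, max (x - c) 0 ^ 2 * c ^ (q - 3) = 0 := by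
    rw [intervalIntegral.integral_congr (g := fun _ => (0 : ℝ))]
    · simp
    · intro c h
      rw [Set.uIcc_of_le hR] at h
      simp [max_eq_right (sub_nonpos.2 h.1)]
  have e2 : ∫ c in (0 : ℝ)..x, max (x - c) 0 ^ 2 * c ^ (q - 3) =
      ∫ c in (0 : ℝ)..x, (x ^ 2 * c ^ (q - 3) - 2 * x * c ^ (q - 2) + c ^ (q - 1)) := by
    refine intervalIntegral.integral_congr fun c h => ?_
    rw [Set.uIcc_of_le hx] at h
    have a1 := Real.rpow_add_one' h.1 (y := q - 3) (by linarith)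
    have a2 := Real.rpow_add_one' h.1 (y := q - 2) (by linarith)
    rw [show q - 3 + 1 = q - 2 by ring] at a1
    rw [show q - 2 + 1 = q - 1 by ring] at a2
    simp only [max_eq_left (sub_nonneg.2 h.2)]
    rw [a2, a1]
    ring
  have hc2 : Continuous fun c : ℝ => c ^ (q - 2) := Real.continuous_rpow_const (by linarith)
  have hc3 : Continuous fun c : ℝ => c ^ (q - 1) := Real.continuous_rpow_const (by linarith)
  rw [e1, e2, intervalIntegral.integral_add, intervalIntegral.integral_sub,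
    intervalIntegral.integral_const_mul, intervalIntegral.integral_const_mul,
    integral_rpow (Or.inl (by linarith)), integral_rpow (Or.inl (by linarith)),
    integral_rpow (Or.inl (by linarith)), Real.zero_rpow (by linarith),
    Real.zero_rpow (by linarith), Real.zero_rpow (by linarith)]
  · have a1 := Real.rpow_add_one' hx (y := q - 2) (by linarith)
    have a2 := Real.rpow_add_one' hx (y := q - 1) (by linarith)
    rw [show q - 2 + 1 = q - 1 by ring] at a1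
    rw [show q - 1 + 1 = q by ring] at a2
    rw [show q - 3 + 1 = q - 2 by ring, show q - 2 + 1 = q - 1 by ring,
      show q - 1 + 1 = q by ring, a2, a1]
    ring
  all_goals exact Continuous.intervalIntegrable (by fun_prop) _ _

theorem core3 {W₁ W₂ W₃ W₄ : Matrix m m ℂ} (h₁ : W₁ᴴ * W₁ = 1) (h₂ : W₂ᴴ * W₂ = 1)
    (h₃ : W₃ᴴ * W₃ = 1) (h₄ : W₄ᴴ * W₄ = 1) {u v d e : m → ℝ} (hu : ∀ i, 0 ≤ u i)
    (hv : ∀ i, 0 ≤ v i) (hd : ∀ i, 0 ≤ d i) (eU : fc W₁ u = fc W₃ d + fc W₄ e)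
    (eV : fc W₂ v = fc W₃ d - fc W₄ e) {q : ℝ} (hq : 3 < q) :
    2 * ∑ i, d i ^ q + (2 ^ q - 2) * ∑ i, |e i| ^ q ≤ ∑ i, u i ^ q + ∑ i, v i ^ q := by
  obtain ⟨R, hR⟩ := Finite.exists_le fun i => u i + v i + d i + 2 * |e i|
  have hc : Continuous fun c : ℝ => c ^ (q - 3) := Real.continuous_rpow_const (by linarith)
  have he := fun i => abs_nonneg (e i)
  have key : ∀ x : m → ℝ, (∀ i, 0 ≤ x i) → (∀ i, x i ≤ |R|) →
      ∫ c in (0 : ℝ)..|R|, (∑ i, max (x i - c) 0 ^ 2) * c ^ (q - 3) =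
        (1 / (q - 2) - 2 / (q - 1) + 1 / q) * ∑ i, x i ^ q := by
    intro x h0 h1
    simp only [sum_mul]
    rw [intervalIntegral.integral_finsetSum fun i _ =>
      Continuous.intervalIntegrable (by fun_prop) _ _, mul_sum]
    exact sum_congr rfl fun i _ => rep hq (h0 i) (h1 i)
  have hR' := le_abs_self R
  have k1 := key u hu fun i => by linarith [hR i, hv i, hd i, he i]
  have k2 := key v hv fun i => by linarith [hR i, hu i, hd i, he i]
  have k3 := key d hd fun i => by linarith [hR i, hu i, hv i, he i]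
  have k4 := key (fun i => |e i|) he fun i => by linarith [hR i, hu i, hv i, hd i, he i]
  have k5 := key (fun i => 2 * |e i|) (fun i => by linarith [he i]) fun i => by
    linarith [hR i, hu i, hv i, hd i]
  have k6 := intervalIntegral.integral_mono_on_of_le_Ioo (μ := MeasureTheory.volume)
    (abs_nonneg R)
    (f := fun c => 2 * ((∑ i, max (d i - c) 0 ^ 2) * c ^ (q - 3)) +
      (∑ i, max (2 * |e i| - c) 0 ^ 2) * c ^ (q - 3))
    (g := fun c => (∑ i, max (u i - c) 0 ^ 2) * c ^ (q - 3) +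
      (∑ i, max (v i - c) 0 ^ 2) * c ^ (q - 3) + 2 * ((∑ i, max (|e i| - c) 0 ^ 2) * c ^ (q - 3)))
    (Continuous.intervalIntegrable (by fun_prop) _ _)
    (Continuous.intervalIntegrable (by fun_prop) _ _) (fun c h => by
      have := mul_le_mul_of_nonneg_right (core2 h₁ h₂ h₃ h₄ hu hv eU eV h.1)
        (Real.rpow_nonneg h.1.le (q - 3))
      linarith)
  rw [intervalIntegral.integral_add, intervalIntegral.integral_add, intervalIntegral.integral_add,
    intervalIntegral.integral_const_mul, intervalIntegral.integral_const_mul, k1, k2, k3, k4,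
    k5] at k6
  · simp only [Real.mul_rpow zero_le_two (he _), ← mul_sum] at k6
    have p : 0 < 1 / (q - 2) - 2 / (q - 1) + 1 / q := by
      have a1 : 0 < q - 2 := by linarith
      have a2 : 0 < q - 1 := by linarith
      have a3 : 0 < q := by linarith
      rw [show 1 / (q - 2) - 2 / (q - 1) + 1 / q = 2 / ((q - 2) * (q - 1) * q) by
        field_simp; ring]
      positivity
    exact le_of_mul_le_mul_left (by linarith) p
  all_goals exact Continuous.intervalIntegrable (by fun_prop) _ _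

end Pool.Agent.H.MP_7b724e_an
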