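import Pool.Agent.H.MP_7b724e_an.D

set_option autoImplicit false
set_option linter.unusedSectionVars false
open Matrix Finset
open scoped ComplexOrder

namespace Pool.Agent.H.MP_7b724e_an

variable {m n : Type} [Fintype m] [DecidableEq m] [Fintype n] [DecidableEq n]

noncomputable def T (f : ℝ → ℝ) (A : Matrix m m ℂ) : ℝ :=
  (A.charpoly.roots.map fun z => f z.re).sum

theorem T_fc (f : ℝ → ℝ) {U : Matrix m m ℂ} (h : Uᴴ * U = 1) (d : m → ℝ) :
    T f (fc U d) = ∑ i, f (d i) := by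
  rw [fc, T, charpoly_mul_comm, ← mul_assoc, h, one_mul, charpoly_diagonal,
    Polynomial.roots_prod _ _ (by simp [prod_ne_zero_iff, Polynomial.X_sub_C_ne_zero])]
  simp

theorem T_comm {f : ℝ → ℝ} (hf : f 0 = 0) (A : Matrix m n ℂ) (B : Matrix n m ℂ) :
    T f (A * B) = T f (B * A) := by
  have h := congrArg (fun p : Polynomial ℂ => (p.roots.map fun z => f z.re).sum)
    (charpoly_mul_comm' A B)
  rw [Polynomial.roots_mul (mul_ne_zero (pow_ne_zero _ Polynomial.X_ne_zero)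
    (charpoly_monic _).ne_zero), Polynomial.roots_mul (mul_ne_zero
    (pow_ne_zero _ Polynomial.X_ne_zero) (charpoly_monic _).ne_zero)] at h
  simpa [T, hf, Polynomial.roots_X_pow, Multiset.map_nsmul, Multiset.sum_nsmul] using h

theorem T_blk (f : ℝ → ℝ) (A : Matrix m m ℂ) (B : Matrix n n ℂ) :
    T f (fromBlocks A 0 0 B) = T f A + T f B := by
  rw [T, charpoly_fromBlocks_zero₁₂, Polynomial.roots_mul (mul_ne_zero
    (charpoly_monic _).ne_zero (charpoly_monic _).ne_zero), Multiset.map_add, Multiset.sum_add]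
  rfl

theorem gram {S R : Matrix m m ℂ} (hS : Sᴴ = S) (hR : Rᴴ = R) {q : ℝ} (hq : q ≠ 0) :
    ∃ (W : Matrix (m ⊕ m) (m ⊕ m) ℂ) (u : m ⊕ m → ℝ), Wᴴ * W = 1 ∧ (∀ i, 0 ≤ u i) ∧
      fc W u = fromBlocks (S * S) (S * R) (R * S) (R * R) ∧
      ∑ i, u i ^ q = T (fun x => x ^ q) (S * S + R * R) := by
  have h := posSemidef_self_mul_conjTranspose (fromRows S R)
  rw [conjTranspose_fromRows_eq_fromCols_conjTranspose, hS, hR] at h
  obtain ⟨W, u, hW, e, -⟩ := spec h.1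
  refine ⟨W, u, hW, fc_nonneg hW (e ▸ h), by rw [← e, fromRows_mul_fromCols], ?_⟩
  rw [← T_fc (fun x => x ^ q) hW, ← e, T_comm (f := fun x => x ^ q) (Real.zero_rpow hq),
    fromCols_mul_fromRows]

theorem q2 {A B : Matrix m m ℂ} (hA : A.PosDef) (hB : B.PosDef) {q : ℝ} (hq : 3 < q) :
    tr (pw A q) + tr (pw B q) + (2 ^ q - 2) * tr (pw (pw A (1 / 2) * B * pw A (1 / 2)) (q / 2)) ≤
      tr (pw (A + B) q) := by
  obtain ⟨V, a, hV, eA, fA⟩ := spec hA.1
  obtain ⟨W, b, hW, eB, fB⟩ := spec hB.1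
  obtain ⟨Z, c, hZ, eC, fC⟩ := spec (hA.add hB).1
  have ha := fc_pos hV (eA ▸ hA)
  have hb := fc_pos hW (eB ▸ hB)
  have hS := fc_herm V fun i => a i ^ (1 / 2 : ℝ)
  have hR := fc_herm W fun i => b i ^ (1 / 2 : ℝ)
  obtain ⟨U, d, hU, eD, fD⟩ := spec (conj_psd hS hB.posSemidef).1
  simp only [pw, fA, fB, fC, fD, tr_fc hV, tr_fc hW, tr_fc hZ, tr_fc hU]
  have eS : (fc V fun i => a i ^ (1 / 2 : ℝ)) * (fc V fun i => a i ^ (1 / 2 : ℝ)) = A := by
    simp only [fc_mul hV, ← Real.rpow_add (ha _), add_halves, Real.rpow_one, ← eA]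
  have eR : (fc W fun i => b i ^ (1 / 2 : ℝ)) * (fc W fun i => b i ^ (1 / 2 : ℝ)) = B := by
    simp only [fc_mul hW, ← Real.rpow_add (hb _), add_halves, Real.rpow_one, ← eB]
  set S := fc V fun i => a i ^ (1 / 2 : ℝ)
  set R := fc W fun i => b i ^ (1 / 2 : ℝ)
  clear_value S R
  have hq0 : q ≠ 0 := by linarith
  obtain ⟨W₁, u, h₁, hu, eU, sU⟩ := gram hS hR hq0
  obtain ⟨W₂, v, h₂, hv, eV, sV⟩ := gram (R := -R) hS (by rw [conjTranspose_neg, hR]) hq0
  simp only [mul_neg, neg_mul, neg_neg, eS, eR] at eU eV sU sV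
  obtain ⟨W₃, x, h₃, e₃, -⟩ := spec (hA.1.fromBlocks (B := 0) (C := 0) (by simp) hB.1)
  obtain ⟨W₄, e, h₄, e₄, -⟩ := spec (isHermitian_zero.fromBlocks (B := S * R) (C := R * S)
    (by rw [conjTranspose_mul, hS, hR]) isHermitian_zero)
  have f1 : fc W₁ u = fc W₃ x + fc W₄ e := by rw [eU, ← e₃, ← e₄, fromBlocks_add]; simp
  have f2 : fc W₂ v = fc W₃ x - fc W₄ e := by
    rw [eV, ← e₃, ← e₄, sub_eq_add_neg, fromBlocks_neg, fromBlocks_add]; simp
  have hx : ∀ i, 0 ≤ x i := fun i => by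
    have := (fc_psd W₁ hu).add (fc_psd W₂ hv)
    rw [f1, f2, add_add_sub_cancel, fc_add] at this
    linarith [fc_nonneg h₃ this i]
  have k := core3 h₁ h₂ h₃ h₄ hu hv hx f1 f2 hq
  have s3 : ∑ i, x i ^ q = ∑ i, a i ^ q + ∑ i, b i ^ q := by
    rw [← T_fc (fun x => x ^ q) h₃, ← e₃, T_blk, ← T_fc (fun x => x ^ q) hV,
      ← T_fc (fun x => x ^ q) hW, ← eA, ← eB]
  have s4 : ∑ i, |e i| ^ q = 2 * ∑ i, d i ^ (q / 2) := by
    have e1 : ∀ i, |e i| ^ q = (e i * e i) ^ (q / 2) := fun i => by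
      rw [← abs_mul_abs_self, Real.mul_rpow (abs_nonneg _) (abs_nonneg _),
        ← Real.rpow_add' (abs_nonneg _) (by rwa [add_halves]), add_halves]
    have h0 : (fun x : ℝ => x ^ (q / 2)) 0 = 0 := Real.zero_rpow (by linarith)
    simp only [e1]
    rw [← T_fc (fun x => x ^ (q / 2)) h₄, ← fc_mul h₄, ← e₄, fromBlocks_multiply]
    simp only [Matrix.mul_zero, Matrix.zero_mul, add_zero, zero_add]
    rw [T_blk, T_comm h0 (R * S), ← T_fc (fun x => x ^ (q / 2)) hU, ← eD, ← eR, two_mul]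
    simp only [mul_assoc]
  rw [sU, sV, s3, s4, eC, T_fc _ hZ] at k
  linarith

end Pool.Agent.H.MP_7b724e_an
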